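import Mathlib
import Pool.Agent.helper17.NR.Fin

/-!
# MP_021c57_co: cycles everywhere at an exponentially small spectral price

For every `d ≥ 3` and `k = 2 ^ (m + 2)`, `m ≥ 2`, there are arbitrarily large connected bipartite
`d`-regular graphs all of whose nontrivial eigenvalues have modulus at most
`2 √(d - 1) + 2 (d - 1) ^ (- (k - 1) / 2)` and in which EVERY vertex lies on a cycle of length `k`
or is adjacent to a vertex of such a cycle.  Hence no ball of radius `k / 2 + 1` is a tree.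

Second part: for every `c > 0` there are connected `d`-regular graphs `G n` on `N n → ∞` vertices,
none of whose balls of radius `c log (N n)` is a tree, whose nontrivial eigenvalues exceed
`2 √(d - 1)` at most by `2 (d - 1) ^ (3 / 2 - c log (N n / 2))`, a constant times
`N n ^ (- c log (d - 1))`.

Method: towers of two-lifts whose signs are prescribed on a family of disjoint cycles and chosen by
the method of Marcus, Spielman and Srivastava outside (here: the average of the determinants has no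
zeros on matrices with positive definite imaginary part); the expected determinant satisfies the
recursion of the matching polynomial with one more term for every prescribed cycle.
-/

set_option autoImplicit false

namespace Pool.Agent.Results.MP_021c57_co.CyclesEverywhere

open Filter

theorem result (d : ℕ) (hd : 3 ≤ d) :
    (∀ m n : ℕ, 2 ≤ m → m ≤ n →
      ∃ (G : SimpleGraph (Fin (2 ^ (n + 1) * d))) (_ : DecidableRel G.Adj),
        G.Connected ∧ G.IsRegularOfDegree d ∧ G.Colorable 2 ∧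
        (∀ μ : ℝ, (∃ x : Fin (2 ^ (n + 1) * d) → ℝ, x ≠ 0 ∧
            Matrix.mulVec (G.adjMatrix ℝ) x = μ • x) →
          |μ| = (d : ℝ) ∨ |μ| ≤ 2 * Real.sqrt ((d : ℝ) - 1) +
            2 * ((d : ℝ) - 1) ^ (-(((2 ^ (m + 2) : ℕ) : ℝ) - 1) / 2)) ∧
        (∀ v, ∃ c : ZMod (2 ^ (m + 2)) → Fin (2 ^ (n + 1) * d), Function.Injective c ∧
          (∀ i, G.Adj (c i) (c (i + 1))) ∧ (v = c 0 ∨ G.Adj v (c 0))) ∧
        ∀ (v : Fin (2 ^ (n + 1) * d)) (R : ℝ), (2 : ℝ) ^ (m + 1) + 1 ≤ R →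
          ¬ (G.induce {u : Fin (2 ^ (n + 1) * d) | (G.dist v u : ℝ) ≤ R}).IsTree) ∧
    (∀ c : ℝ, 0 < c →
      ∃ (N : ℕ → ℕ) (G : ∀ n, SimpleGraph (Fin (N n))) (_ : ∀ n, DecidableRel (G n).Adj),
        Tendsto N atTop atTop ∧
        (∀ n, (G n).Connected ∧ (G n).IsRegularOfDegree d ∧
          ∀ μ : ℝ, (∃ x : Fin (N n) → ℝ, x ≠ 0 ∧
              Matrix.mulVec ((G n).adjMatrix ℝ) x = μ • x) →
            |μ| = (d : ℝ) ∨ |μ| ≤ 2 * Real.sqrt ((d : ℝ) - 1) +
              2 * ((d : ℝ) - 1) ^ (3 / 2 - c * Real.log ((N n : ℝ) / 2))) ∧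
        ∀ (n : ℕ) (v : Fin (N n)),
          ¬ ((G n).induce {u : Fin (N n) |
            ((G n).dist v u : ℝ) ≤ c * Real.log (N n)}).IsTree) := by
  have hd3 : (3 : ℝ) ≤ d := by exact_mod_cast hd
  have hd1 : (1 : ℝ) ≤ (d : ℝ) - 1 := by linarith
  have part1 : ∀ m n : ℕ, 2 ≤ m → m ≤ n →
      ∃ (G : SimpleGraph (Fin (2 ^ (n + 1) * d))) (_ : DecidableRel G.Adj),
        G.Connected ∧ G.IsRegularOfDegree d ∧ G.Colorable 2 ∧
        (∀ μ : ℝ, (∃ x : Fin (2 ^ (n + 1) * d) → ℝ, x ≠ 0 ∧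
            Matrix.mulVec (G.adjMatrix ℝ) x = μ • x) →
          |μ| = (d : ℝ) ∨ |μ| ≤ 2 * Real.sqrt ((d : ℝ) - 1) +
            2 * ((d : ℝ) - 1) ^ (-(((2 ^ (m + 2) : ℕ) : ℝ) - 1) / 2)) ∧
        (∀ v, ∃ c : ZMod (2 ^ (m + 2)) → Fin (2 ^ (n + 1) * d), Function.Injective c ∧
          (∀ i, G.Adj (c i) (c (i + 1))) ∧ (v = c 0 ∨ G.Adj v (c 0))) ∧
        ∀ (v : Fin (2 ^ (n + 1) * d)) (R : ℝ), (2 : ℝ) ^ (m + 1) + 1 ≤ R →
          ¬ (G.induce {u : Fin (2 ^ (n + 1) * d) | (G.dist v u : ℝ) ≤ R}).IsTree := by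
    intro m n hm hmn
    have hk : 3 ≤ 2 ^ (m + 2) := by
      have : 2 ^ 2 ≤ 2 ^ (m + 2) := Nat.pow_le_pow_right (by norm_num) (by omega)
      omega
    obtain ⟨G, hG, h1, h2, h3, h4, h5, h6⟩ := Pool.Agent.helper17.NR.Fin_of_state d _ hk _ _
      (Pool.Agent.helper17.NR.tower d m n hd hm hmn)
    refine ⟨G, hG, h1, h2, h3, h4, h5, ?_⟩
    intro v R hR
    apply h6 v R
    have : (((2 ^ (m + 2) : ℕ) : ℝ)) / 2 = (2 : ℝ) ^ (m + 1) := by
      push_cast
      rw [pow_succ]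
      ring
    rw [this]
    exact hR
  refine ⟨part1, ?_⟩
  intro c hc
  -- the size of the graph for given `m`
  have hdpos : (0 : ℝ) < d := by linarith
  have hlog2 : 0 < Real.log 2 := Real.log_pos (by norm_num)
  have hlogN : ∀ n : ℕ, Real.log ((2 ^ n * d : ℕ) : ℝ) = n * Real.log 2 + Real.log d := by
    intro n
    push_cast
    rw [Real.log_mul (by positivity) (by positivity), Real.log_pow]
  have hsmall : ∃ m0 : ℕ, ∀ m, m0 ≤ m →
      c * Real.log ((2 ^ m * d : ℕ) : ℝ) < (2 : ℝ) ^ (m + 1) + 1 := by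
    have ht : Tendsto (fun m : ℕ => (c * Real.log 2) * ((m : ℝ) ^ 1 / (2 : ℝ) ^ m) +
        (c * Real.log d) * ((m : ℝ) ^ 0 / (2 : ℝ) ^ m)) atTop
        (nhds ((c * Real.log 2) * 0 + (c * Real.log d) * 0)) :=
      ((tendsto_pow_const_div_const_pow_of_one_lt 1 (by norm_num : (1 : ℝ) < 2)).const_mul _).add
        ((tendsto_pow_const_div_const_pow_of_one_lt 0 (by norm_num : (1 : ℝ) < 2)).const_mul _)
    rw [mul_zero, mul_zero, add_zero] at ht
    have h1 := ht.eventually (gt_mem_nhds (by norm_num : (0 : ℝ) < 1))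
    obtain ⟨m0, hm0⟩ := Filter.eventually_atTop.mp h1
    refine ⟨m0, fun m hm => ?_⟩
    have h2 := hm0 m hm
    rw [hlogN]
    have h3 : (0 : ℝ) < (2 : ℝ) ^ m := by positivity
    have h4 : (c * Real.log 2) * ((m : ℝ) ^ 1 / (2 : ℝ) ^ m) +
        (c * Real.log d) * ((m : ℝ) ^ 0 / (2 : ℝ) ^ m) =
        (c * (m * Real.log 2 + Real.log d)) / (2 : ℝ) ^ m := by
      field_simp
    rw [h4, div_lt_one h3] at h2
    have h5 : (2 : ℝ) ^ (m + 1) = 2 * (2 : ℝ) ^ m := by ring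
    rw [h5]
    linarith
  obtain ⟨m0, hm0⟩ := hsmall
  have hsize : ∀ m : ℕ, m0 ≤ m → ∃ n : ℕ, m ≤ n ∧
      (2 : ℝ) ^ (m + 1) + 1 ≤ c * Real.log ((2 ^ (n + 1) * d : ℕ) : ℝ) ∧
      c * Real.log ((2 ^ n * d : ℕ) : ℝ) ≤ (2 : ℝ) ^ (m + 1) + 1 := by
    intro m hm
    have hex : ∃ n : ℕ, (2 : ℝ) ^ (m + 1) + 1 ≤ c * Real.log ((2 ^ (n + 1) * d : ℕ) : ℝ) := by
      obtain ⟨n, hn⟩ := exists_nat_gt (((2 : ℝ) ^ (m + 1) + 1) / (c * Real.log 2))
      refine ⟨n, ?_⟩
      rw [hlogN]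
      have hcl : 0 < c * Real.log 2 := by positivity
      rw [div_lt_iff₀ hcl] at hn
      have hld : 0 ≤ Real.log d := Real.log_nonneg (by linarith)
      push_cast
      have h1 : 0 ≤ c * Real.log d := by positivity
      nlinarith
    classical
    let n := Nat.find hex
    have hn1 := Nat.find_spec hex
    have hmono : ∀ a b : ℕ, a ≤ b →
        c * Real.log ((2 ^ a * d : ℕ) : ℝ) ≤ c * Real.log ((2 ^ b * d : ℕ) : ℝ) := by
      intro a b hab
      rw [hlogN, hlogN]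
      have : (a : ℝ) ≤ b := by exact_mod_cast hab
      have h2 : (a : ℝ) * Real.log 2 ≤ b * Real.log 2 := by nlinarith
      nlinarith
    have hmn : m ≤ Nat.find hex := by
      by_contra h
      have h1 := hmono (Nat.find hex + 1) m (by omega)
      have h2 := hm0 m hm
      linarith
    refine ⟨Nat.find hex, hmn, hn1, ?_⟩
    rcases Nat.eq_zero_or_pos (Nat.find hex) with h0 | h0
    · have h1 := hmono (Nat.find hex) m (by omega)
      have h2 := hm0 m hm
      linarith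
    · have h1 := Nat.find_min hex (m := Nat.find hex - 1) (by omega)
      rw [Nat.sub_add_cancel h0, not_le] at h1
      exact h1.le
  choose! f hf1 hf2 hf3 using hsize
  -- the sequence
  let M : ℕ → ℕ := fun j => m0 + 2 + j
  have hM0 : ∀ j, m0 ≤ M j := fun j => by show m0 ≤ m0 + 2 + j; omega
  have hM2 : ∀ j, 2 ≤ M j := fun j => by show 2 ≤ m0 + 2 + j; omega
  have key := fun j => part1 (M j) (f (M j)) (hM2 j) (hf1 _ (hM0 j))
  choose G hdec h1 h2 h3 h4 h5 h6 using key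
  refine ⟨fun j => 2 ^ (f (M j) + 1) * d, G, hdec, ?_, ?_, ?_⟩
  · apply tendsto_atTop_mono (f := fun j : ℕ => j) _ tendsto_id
    intro j
    have e1 : j ≤ M j := by show j ≤ m0 + 2 + j; omega
    have e2 : M j ≤ f (M j) := hf1 _ (hM0 j)
    have e3 : f (M j) + 1 < 2 ^ (f (M j) + 1) := Nat.lt_two_pow_self
    have e4 : 2 ^ (f (M j) + 1) * 1 ≤ 2 ^ (f (M j) + 1) * d := Nat.mul_le_mul_left _ (by omega)
    show j ≤ 2 ^ (f (M j) + 1) * d
    omega
  · intro j
    refine ⟨h1 j, h2 j, ?_⟩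
    intro μ hμ
    rcases h4 j μ hμ with h | h
    · exact Or.inl h
    · right
      refine h.trans ?_
      have hN : (((2 ^ (f (M j) + 1) * d : ℕ) : ℝ)) / 2 = ((2 ^ (f (M j)) * d : ℕ) : ℝ) := by
        push_cast
        rw [pow_succ]
        ring
      have hexp : -(((2 ^ (M j + 2) : ℕ) : ℝ) - 1) / 2 ≤
          3 / 2 - c * Real.log ((((2 ^ (f (M j) + 1) * d : ℕ) : ℝ)) / 2) := by
        rw [hN]
        have e1 := hf3 _ (hM0 j)
        have e2 : (((2 ^ (M j + 2) : ℕ) : ℝ)) = 2 * (2 : ℝ) ^ (M j + 1) := by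
          push_cast
          rw [pow_succ]
          ring
        rw [e2]
        linarith
      have hpow := Real.rpow_le_rpow_of_exponent_le hd1 hexp
      linarith
  · intro j v
    exact h6 j v _ (hf2 _ (hM0 j))

end Pool.Agent.Results.MP_021c57_co.CyclesEverywhere
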