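import Mathlib
import Pool.Agent.helper5.RG.Fin

/-!
# MP_021c57_co: the essential girth of (nearly) Ramanujan graphs

First part: a bound, for every finite connected `d`-regular graph on `N` vertices all of whose
nontrivial eigenvalues have modulus at most `2 √(d - 1) + η`, for the number of vertices `v` such
that the ball of radius `r` around `v` does not induce a tree.  Second part: hence in a sequence
of Ramanujan graphs (the bound `2 √(d - 1) + a / (log N) ^ 2` is enough) the ball of radius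
`c log log N / log (d - 1)` around a random vertex is a tree with probability tending to one, for
every `c < 2`.
-/

set_option autoImplicit false

namespace Pool.Agent.Results.MP_021c57_co.EssentialGirth

open Filter

theorem result (d : ℕ) (hd : 3 ≤ d) :
    (∀ (N : ℕ) (G : SimpleGraph (Fin N)) [DecidableRel G.Adj] (η : ℝ), 0 ≤ η →
      G.Connected → G.IsRegularOfDegree d →
      (∀ μ : ℝ, (∃ x : Fin N → ℝ, x ≠ 0 ∧ Matrix.mulVec (G.adjMatrix ℝ) x = μ • x) →
        |μ| = (d : ℝ) ∨ |μ| ≤ 2 * Real.sqrt ((d : ℝ) - 1) + η) →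
      ∀ r : ℕ, ({v : Fin N | ¬ (G.induce {u : Fin N | G.dist v u ≤ r}).IsTree}.ncard : ℝ) ≤
        663552 * (d : ℝ) ^ 2 * (36 * Real.log ((d : ℝ) - 1) ^ 2 + 16) * ((r : ℝ) + 1) ^ 2 *
          ((d : ℝ) - 1) ^ r * (η + 1 / Real.log N ^ 2) * N) ∧
    (∀ c a : ℝ, 0 ≤ c → c < 2 → 0 ≤ a →
      ∀ (N : ℕ → ℕ) (G : ∀ n, SimpleGraph (Fin (N n))) [∀ n, DecidableRel (G n).Adj],
        Tendsto N atTop atTop →
        (∀ n, (G n).Connected ∧ (G n).IsRegularOfDegree d ∧
          ∀ μ : ℝ, (∃ x : Fin (N n) → ℝ, x ≠ 0 ∧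
              Matrix.mulVec ((G n).adjMatrix ℝ) x = μ • x) →
            |μ| = (d : ℝ) ∨ |μ| ≤ 2 * Real.sqrt ((d : ℝ) - 1) + a / Real.log (N n) ^ 2) →
        Tendsto
          (fun n => (({v : Fin (N n) |
              ((G n).induce {u : Fin (N n) | ((G n).dist v u : ℝ) ≤
                c * (Real.log (Real.log (N n)) / Real.log ((d : ℝ) - 1))}).IsTree}.ncard : ℝ)
              / (N n : ℝ)))
          atTop (nhds 1)) := by
  refine ⟨fun N G _ η hη hc hr hs r =>
    Pool.Agent.helper5.RG.bad_bound' d hd N G η hη hc hr hs r, ?_⟩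
  intro c a hc0 hc ha N G _ hN hG
  exact Pool.Agent.helper5.RG.seq_bound d hd c hc0 hc a ha N G hN hG

end Pool.Agent.Results.MP_021c57_co.EssentialGirth
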