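import Mathlib
import Pool.Agent.helper42.PB.Fin

/-!
# MP_021c57_co: nearly Ramanujan graphs almost none of whose balls of radius `c log N` is a tree

First part: let `H` be a finite connected `d`-regular graph on `N` vertices all of whose nontrivial
eigenvalues have modulus at most `L`.  By changing few edges (switches which plant a cycle at every
point of a separated net) one gets a connected `d`-regular graph `G` on the same vertices whose
nontrivial eigenvalues have modulus at most `max (2 √(d - 1)) (L + 72 / m ^ 3)`, all but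
`8 N / (d - 1) ^ (2 m + 1)` of them (with multiplicity) modulus at most `max (2 √(d - 1)) L`, and
such that only `2 N / (d - 1) ^ m` of the balls of radius `5 m + 7` of `G` are trees.

Second part: hence, for every radius `R n → ∞`, every sequence of expanders, e.g. of Ramanujan
graphs, can be changed, in few edges and with an increase of the bound for the spectrum of
`15552 / R n ^ 3` at most, into a sequence for which the ball of radius `R n` around a random
vertex is a tree with probability tending to zero.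

Third part: hence (`R n = c log N`) a positive answer to the question (even with `the probability
does not tend to 0` in place of `the probability tends to 1`) implies that every large connected
`d`-regular graph on `N` vertices has a nontrivial eigenvalue of modulus more than
`2 √(d - 1) - 15552 / (c log N) ^ 3`.
-/

set_option autoImplicit false

namespace Pool.Agent.Results.MP_021c57_co.PlantedCycles

open Filter

theorem result (d : ℕ) (hd : 3 ≤ d) :
    (∀ (N : ℕ) (H : SimpleGraph (Fin N)) [DecidableRel H.Adj] (L : ℝ) (m r : ℕ),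
      1 ≤ m → 5 * m + 7 ≤ r → H.Connected → H.IsRegularOfDegree d →
      (∀ μ : ℝ, (∃ x : Fin N → ℝ, x ≠ 0 ∧ Matrix.mulVec (H.adjMatrix ℝ) x = μ • x) →
        |μ| = (d : ℝ) ∨ |μ| ≤ L) →
      L + 72 / (m : ℝ) ^ 3 < d →
      ∃ (G : SimpleGraph (Fin N)) (_ : DecidableRel G.Adj),
        G.Connected ∧ G.IsRegularOfDegree d ∧
        (∀ μ : ℝ, (∃ x : Fin N → ℝ, x ≠ 0 ∧ Matrix.mulVec (G.adjMatrix ℝ) x = μ • x) →
          |μ| = (d : ℝ) ∨ |μ| ≤ max (2 * Real.sqrt ((d : ℝ) - 1)) (L + 72 / (m : ℝ) ^ 3)) ∧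
        (d - 1) ^ m * {v : Fin N | (G.induce {u : Fin N | G.dist v u ≤ r}).IsTree}.ncard ≤
          2 * N ∧
        (d - 1) ^ (2 * m + 1) *
          {p : Fin N × Fin N | ¬ (G.Adj p.1 p.2 ↔ H.Adj p.1 p.2)}.ncard ≤ 8 * N ∧
        (d - 1) ^ (2 * m + 1) * ((G.adjMatrix ℝ).charpoly.roots.filter fun μ : ℝ =>
          |μ| ≠ (d : ℝ) ∧ max (2 * Real.sqrt ((d : ℝ) - 1)) L < |μ|).card ≤ 8 * N) ∧
    (∀ (R : ℕ → ℝ), (∀ n, 0 ≤ R n) → Tendsto R atTop atTop →
      ∀ (N : ℕ → ℕ) (H : ∀ n, SimpleGraph (Fin (N n))) [∀ n, DecidableRel (H n).Adj]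
        (L : ℕ → ℝ) (M : ℝ), M < d → (∀ n, L n ≤ M) →
        (∀ n, (H n).Connected ∧ (H n).IsRegularOfDegree d ∧
          ∀ μ : ℝ, (∃ x : Fin (N n) → ℝ, x ≠ 0 ∧
              Matrix.mulVec ((H n).adjMatrix ℝ) x = μ • x) →
            |μ| = (d : ℝ) ∨ |μ| ≤ L n) →
        ∃ (G : ∀ n, SimpleGraph (Fin (N n))) (_ : ∀ n, DecidableRel (G n).Adj),
          (∀ n, (G n).Connected ∧ (G n).IsRegularOfDegree d ∧
            ∀ μ : ℝ, (∃ x : Fin (N n) → ℝ, x ≠ 0 ∧
                Matrix.mulVec ((G n).adjMatrix ℝ) x = μ • x) →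
              |μ| = (d : ℝ) ∨ |μ| ≤ max (2 * Real.sqrt ((d : ℝ) - 1)) (L n + 15552 / R n ^ 3)) ∧
          Tendsto
            (fun n => (({v : Fin (N n) |
                ((G n).induce {u : Fin (N n) | ((G n).dist v u : ℝ) ≤ R n}).IsTree}.ncard : ℝ)
                / (N n : ℝ)))
            atTop (nhds 0) ∧
          ∀ᶠ n in atTop,
            ((d : ℝ) - 1) ^ (R n / 6) * ({v : Fin (N n) |
              ((G n).induce {u : Fin (N n) | ((G n).dist v u : ℝ) ≤ R n}).IsTree}.ncard : ℝ) ≤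
                2 * N n ∧
            ((d : ℝ) - 1) ^ (R n / 3) * ({p : Fin (N n) × Fin (N n) |
              ¬ ((G n).Adj p.1 p.2 ↔ (H n).Adj p.1 p.2)}.ncard : ℝ) ≤ 8 * N n ∧
            ((d : ℝ) - 1) ^ (R n / 3) * ((((G n).adjMatrix ℝ).charpoly.roots.filter fun μ : ℝ =>
              |μ| ≠ (d : ℝ) ∧ max (2 * Real.sqrt ((d : ℝ) - 1)) (L n) < |μ|).card : ℝ) ≤
                8 * N n) ∧
    (∀ c : ℝ, 0 < c →
      (∀ (N : ℕ → ℕ) (G : ∀ n, SimpleGraph (Fin (N n))) [∀ n, DecidableRel (G n).Adj],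
        Tendsto N atTop atTop →
        (∀ n, (G n).Connected ∧ (G n).IsRegularOfDegree d ∧
          ∀ μ : ℝ, (∃ x : Fin (N n) → ℝ, x ≠ 0 ∧
              Matrix.mulVec ((G n).adjMatrix ℝ) x = μ • x) →
            |μ| = (d : ℝ) ∨ |μ| ≤ 2 * Real.sqrt ((d : ℝ) - 1)) →
        ¬ Tendsto
          (fun n => (({v : Fin (N n) |
              ((G n).induce {u : Fin (N n) | ((G n).dist v u : ℝ) ≤
                c * Real.log (N n)}).IsTree}.ncard : ℝ) / (N n : ℝ)))
          atTop (nhds 0)) →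
      ∃ N₀ : ℕ, ∀ N : ℕ, N₀ ≤ N → ∀ (H : SimpleGraph (Fin N)) [DecidableRel H.Adj],
        H.Connected → H.IsRegularOfDegree d →
          ∃ μ : ℝ, (∃ x : Fin N → ℝ, x ≠ 0 ∧ Matrix.mulVec (H.adjMatrix ℝ) x = μ • x) ∧
            |μ| ≠ (d : ℝ) ∧
            2 * Real.sqrt ((d : ℝ) - 1) - 15552 / (c * Real.log N) ^ 3 < |μ|) := by
  refine ⟨fun N H _ L m r hm hr hc hreg hs hlt =>
    Pool.Agent.helper42.PB.fin_plant d hd N H L m r hm hr hc hreg hs hlt, ?_, ?_⟩
  · intro R hR0 hR N H _ L M hM hLM hH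
    exact Pool.Agent.helper42.PB.seq_plant d hd R hR0 hR N H L M hM hLM hH
  · intro c hc hQ
    exact Pool.Agent.helper42.PB.gap_of_tree d hd c hc hQ

end Pool.Agent.Results.MP_021c57_co.PlantedCycles
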