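import Mathlib
import Pool.Agent.helper99.TV.Seq

/-!
# MP_021c57_co: the balls of logarithmic radius of a Ramanujan graph have the volume of a tree ball

First part: in a finite connected `d`-regular graph on `N` vertices all of whose nontrivial
eigenvalues have modulus at most `2 √(d - 1) + η`, around every vertex whose ball of radius `a`
induces a tree the spheres of radius `j ≤ k` have at least `(1 - E) d (d - 1) ^ (j - 1)` vertices,
with `E` of order `1 / a` as long as `k` is below `(1 - δ) log N / log (d - 1)`.  Second part: hence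
in a sequence of Ramanujan graphs almost every vertex has, for all `j ≤ (1 - ε) log N / log (d - 1)`,
at least `(1 - ε) d (d - 1) ^ (j - 1)` vertices at distance `j`.
-/

set_option autoImplicit false

namespace Pool.Agent.Results.MP_021c57_co.TypicalVolume

open Filter

theorem result (d : ℕ) (hd : 3 ≤ d) :
    (∀ (N : ℕ) (G : SimpleGraph (Fin N)) [DecidableRel G.Adj] (η : ℝ), 0 ≤ η →
      G.Connected → G.IsRegularOfDegree d →
      (∀ μ : ℝ, (∃ x : Fin N → ℝ, x ≠ 0 ∧ Matrix.mulVec (G.adjMatrix ℝ) x = μ • x) →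
        |μ| = (d : ℝ) ∨ |μ| ≤ 2 * Real.sqrt ((d : ℝ) - 1) + η) →
      ∀ a k b : ℕ, 1 ≤ a → a ≤ k → 1 ≤ b →
      ∀ v : Fin N, (G.induce {u : Fin N | G.dist v u ≤ a}).IsTree →
      ∀ j : ℕ, 1 ≤ j → j ≤ k →
        (1 - (5 * (d : ℝ) * (1 / a + 1 / b) + 9 * η * (k + b) +
          14 * (d : ℝ) * (k + b) ^ 2 * ((d : ℝ) - 1) ^ (k + b) / N)) *
            ((d : ℝ) * ((d : ℝ) - 1) ^ (j - 1)) ≤ ({u : Fin N | G.dist v u = j}.ncard : ℝ)) ∧
    (∀ ε : ℝ, 0 < ε → ε < 1 →
      ∀ (N : ℕ → ℕ) (G : ∀ n, SimpleGraph (Fin (N n))) [∀ n, DecidableRel (G n).Adj]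
        (η : ℕ → ℝ), (∀ n, 0 ≤ η n) →
        Tendsto N atTop atTop →
        Tendsto (fun n => η n * Real.log (N n)) atTop (nhds 0) →
        (∀ n, (G n).Connected ∧ (G n).IsRegularOfDegree d ∧
          ∀ μ : ℝ, (∃ x : Fin (N n) → ℝ, x ≠ 0 ∧
              Matrix.mulVec ((G n).adjMatrix ℝ) x = μ • x) →
            |μ| = (d : ℝ) ∨ |μ| ≤ 2 * Real.sqrt ((d : ℝ) - 1) + η n) →
        Tendsto
          (fun n => (({v : Fin (N n) | ∀ j : ℕ, 1 ≤ j →
              (j : ℝ) ≤ (1 - ε) * (Real.log (N n) / Real.log ((d : ℝ) - 1)) →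
                (1 - ε) * ((d : ℝ) * ((d : ℝ) - 1) ^ (j - 1)) ≤
                  ({u : Fin (N n) | (G n).dist v u = j}.ncard : ℝ)}.ncard : ℝ) / (N n : ℝ)))
          atTop (nhds 1)) := by
  refine ⟨fun N G _ η hη hc hr hs a k b ha hak hb v ht j hj hjk =>
    Pool.Agent.helper99.TV.sphere_ge_fin d hd N G η hη hc hr hs a k b ha hak hb v ht j hj hjk, ?_⟩
  intro ε h0 h1 N G _ η hη0 hN hη hG
  exact Pool.Agent.helper99.TV.seq_volume d hd ε h0 h1 N G η hη0 hN hη hG

end Pool.Agent.Results.MP_021c57_co.TypicalVolume
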